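import Pool.Agent.P.MP_7fd347_lc.Defs

/-! Shortest paths, parity, and transport along isomorphisms. -/

set_option autoImplicit false

namespace Pool.Agent.P.MP_7fd347_lc

variable {V V' : Type} {G : SimpleGraph V} {G' : SimpleGraph V'}

theorem exists_chain {x y : V} (h : G.Reachable x y) :
    ∃ (n : ℕ) (w : ℕ → V), w 0 = x ∧ w n = y ∧ ∀ i < n, G.Adj (w i) (w (i + 1)) := by
  obtain ⟨p⟩ := h
  exact ⟨p.length, p.getVert, p.getVert_zero, p.getVert_length, fun i hi => p.adj_getVert_succ hi⟩

theorem exists_indPath {x y : V} (h : G.Reachable x y) :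
    ∃ n w, IndPath G n w ∧ w 0 = x ∧ w n = y := by
  classical
  have hex := exists_chain h
  obtain ⟨w, h0, hn, hw⟩ := Nat.find_spec hex
  set n := Nat.find hex with hdef
  have key : ∀ i j, i + 1 < j → j ≤ n → ¬G.Adj (w i) (w j) := by
    intro i j hij hj ha
    refine Nat.find_min hex (m := n - (j - i - 1)) (by omega)
      ⟨fun k => if k ≤ i then w k else w (k + (j - i - 1)), by simpa using h0, ?_, fun k hk => ?_⟩
    · beta_reduce
      rw [if_neg (by omega), show n - (j - i - 1) + (j - i - 1) = n by omega, hn]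
    · beta_reduce
      by_cases h1 : k + 1 ≤ i
      · rw [if_pos (by omega), if_pos h1]; exact hw k (by omega)
      by_cases h2 : k ≤ i
      · rw [if_pos h2, if_neg h1, show k + 1 + (j - i - 1) = j by omega, show k = i by omega]
        exact ha
      · rw [if_neg h2, if_neg h1, show k + 1 + (j - i - 1) = k + (j - i - 1) + 1 by omega]
        exact hw _ (by omega)
  have inj : ∀ i j, i < j → j ≤ n → w i ≠ w j := by
    intro i j hij hj e
    by_cases h1 : j = n
    · exact Nat.find_min hex (m := i) (by omega)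
        ⟨w, h0, by rw [e, h1, hn], fun k hk => hw k (by omega)⟩
    · exact key i (j + 1) (by omega) (by omega) (e ▸ hw j (by omega))
  refine ⟨n, w, fun i hi j hj => ⟨fun e => ?_, fun ha => ?_, ?_⟩, h0, hn⟩
  · rcases lt_trichotomy i j with h | h | h
    · exact absurd e (inj i j h hj)
    · exact h
    · exact absurd e.symm (inj j i h hi)
  · by_contra hc
    rcases lt_trichotomy i j with h | h | h
    · exact key i j (by omega) hj ha
    · exact ha.ne (by rw [h])
    · exact key j i (by omega) hi ha.symm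
  · rintro (rfl | rfl)
    · exact hw i (by omega)
    · exact (hw j (by omega)).symm

theorem parity {w : ℕ → V} (c : V → Bool) (n : ℕ) (h : ∀ i < n, c (w i) ≠ c (w (i + 1))) :
    c (w n) = c (w 0) ↔ Even n := by
  induction n with
  | zero => simp
  | succ n ih =>
    have h1 := ih fun i hi => h i (by omega)
    have h2 := h n (by omega)
    rw [Nat.even_add_one, ← h1]
    revert h2
    cases c (w n) <;> cases c (w (n + 1)) <;> cases c (w 0) <;> simp

theorem IndPath.map (e : G ↪g G') {n : ℕ} {w : ℕ → V} (h : IndPath G n w) :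
    IndPath G' n fun i => e (w i) := fun i hi j hj =>
  ⟨fun x => (h i hi j hj).1 (e.injective x), e.map_adj_iff.trans (h i hi j hj).2⟩

theorem IndCycle.map (e : G ↪g G') {n : ℕ} {w : ℕ → V} (h : IndCycle G n w) :
    IndCycle G' n fun i => e (w i) := fun i hi j hj =>
  ⟨fun x => (h i hi j hj).1 (e.injective x), e.map_adj_iff.trans (h i hi j hj).2⟩

theorem HasOddHole.map (e : G ↪g G') (h : HasOddHole G) : HasOddHole G' := by
  obtain ⟨n, w, h1, h2, h3⟩ := h
  exact ⟨n, _, h1, h2, h3.map e⟩

theorem Berge.comap (e : G ↪g G') (h : Berge G') : Berge G :=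
  ⟨fun x => h.1 (x.map e), fun x => h.2 (x.map (SimpleGraph.Embedding.complEquiv e))⟩

theorem EvenPair.comap (e : G ↪g G') {x y : V} (h : EvenPair G' (e x) (e y)) : EvenPair G x y :=
  ⟨fun x => h.1 (congrArg e x), fun x => h.2.1 (e.map_adj_iff.2 x),
    fun n _ hw h0 hn => h.2.2 n _ (hw.map e) (congrArg e h0) (congrArg e hn)⟩

/-- The facts about an odd hole that are used. -/
structure Cyc (G : SimpleGraph V) (n : ℕ) (W : ℕ → V) : Prop where
  per : ∀ k, W (k + n) = W k
  adj : ∀ k, G.Adj (W k) (W (k + 1))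
  far : ∀ k d, 2 ≤ d → d + 2 ≤ n → W k ≠ W (k + d) ∧ ¬G.Adj (W k) (W (k + d))

theorem IndCycle.cyc {n : ℕ} {w : ℕ → V} (h : IndCycle G n w) (hn : 5 ≤ n) :
    Cyc G n fun k => w (k % n) := by
  have lt : ∀ k, k % n < n := fun k => Nat.mod_lt _ (by omega)
  have md : ∀ a b : ℕ, 0 < b → b < n → (a + b) % n ≠ a % n := by
    intro a b h0 hb e
    have := (Nat.sub_mod_eq_zero_of_mod_eq e)
    rw [Nat.add_sub_cancel_left, Nat.mod_eq_of_lt hb] at this
    omega
  refine ⟨fun k => by simp, fun k => (h _ (lt _) _ (lt _)).2.2 (Or.inl (by simp)),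
    fun k d h2 hd => ⟨fun e => md k d (by omega) (by omega) ((h _ (lt _) _ (lt _)).1 e).symm,
      fun ha => ?_⟩⟩
  rcases (h _ (lt _) _ (lt _)).2.1 ha with e | e
  · rw [Nat.mod_add_mod] at e
    refine md (k + 1) (d - 1) (by omega) (by omega) ?_
    rw [e, show k + 1 + (d - 1) = k + d by omega]
  · rw [Nat.mod_add_mod] at e
    exact md k (d + 1) (by omega) (by omega) e

end Pool.Agent.P.MP_7fd347_lc
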