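import Pool.Agent.P.MP_7fd347_lc.Gad

/-! The gadget over a bipartite graph is Berge. -/

set_option autoImplicit false

namespace Pool.Agent.P.MP_7fd347_lc

variable {V : Type} {C : SimpleGraph V} {x y : V}

theorem Cyc.even {W : Type} {G : SimpleGraph W} {n : ℕ} {w : ℕ → W} (h : Cyc G n w)
    (c : W → Bool) (hc : ∀ k, c (w k) ≠ c (w (k + 1))) : Even n := by
  refine (parity c n fun i _ => hc i).1 ?_
  rw [← h.per 0, Nat.zero_add]

theorem no_cyc (hxy : x ≠ y) (hn : ¬C.Adj x y) (c : V → Bool) (hc : ∀ a b, C.Adj a b → c a ≠ c b)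
    {n : ℕ} {w : ℕ → V × Fin 6} (ho : Odd n) (h5 : 5 ≤ n) (h : Cyc (gadH C x y) n w) : False := by
  by_cases hz : ∀ k, ((w k).2 : ℕ) = 0
  · have key : ∀ k d, 2 ≤ d → d ≤ 3 → c (w k).1 ≠ c (w (k + d)).1 := by
      intro k d d2 d3
      obtain ⟨f1, f2⟩ := h.far k d d2 (by omega)
      refine hc _ _ (by_contra fun e => f2 (Or.inl ⟨hz _, hz _, fun e' => f1 ?_, e⟩))
      exact Prod.ext e' (Fin.ext ((hz _).trans (hz _).symm))
    have a1 := key 0 2 (by omega) (by omega)
    have a2 := key 0 3 (by omega) (by omega)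
    have a3 := key 1 2 (by omega) (by omega)
    have a4 := key 1 3 (by omega) (by omega)
    have a5 := key 2 2 (by omega) (by omega)
    norm_num at a1 a2 a3 a4 a5
    revert a1 a2 a3 a4 a5
    cases c (w 0).1 <;> cases c (w 1).1 <;> cases c (w 2).1 <;> cases c (w 3).1 <;>
      cases c (w 4).1 <;> simp
  have ex0 : ∃ k, ((w k).2 : ℕ) = 0 := by
    by_contra hne
    push Not at hne
    refine Nat.not_even_iff_odd.2 ho (h.even (fun p => decide ((p.2 : ℕ) % 2 = 0)) fun k => ?_)
    have := h.adj k
    have a := hne k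
    have b := hne (k + 1)
    simp only [gadH_adj, HA, a, b, false_and, false_or] at this
    have := this.2.2.2
    simp only [ne_eq, decide_eq_decide]
    omega
  obtain ⟨k, k0, k1⟩ : ∃ k, ((w k).2 : ℕ) = 0 ∧ ((w (k + 1)).2 : ℕ) ≠ 0 := by
    by_contra hne
    push Not at hne
    obtain ⟨k, hk⟩ := ex0
    have all : ∀ d, ((w (k + d)).2 : ℕ) = 0 := fun d => by
      induction d with
      | zero => exact hk
      | succ d ih => exact hne _ ih
    have per : ∀ t j, w (j + t * n) = w j := fun t j => by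
      induction t with
      | zero => simp
      | succ t ih => rw [Nat.succ_mul, ← Nat.add_assoc, h.per, ih]
    refine hz fun j => ?_
    have := all (j + k * n - k)
    rwa [show k + (j + k * n - k) = j + k * n by
      have : k ≤ k * n := Nat.le_mul_of_pos_right _ (by omega)
      omega, per] at this
  have ne2 : ∀ j, (w j).1 = (w (j + 2)).1 → ((w j).2 : ℕ) ≠ (w (j + 2)).2 := fun j e e' =>
    (h.far j 2 le_rfl (by omega)).1 (Prod.ext e (Fin.ext e'))
  have a0 := h.adj k
  simp only [gadH_adj, HA, k0, k1, false_and, and_false, true_and, false_or, or_false, ne_eq,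
    not_true_eq_false] at a0
  have a1 := h.adj (k + 1)
  have k2 : ((w (k + 2)).2 : ℕ) ≠ 0 := by
    intro k2
    simp only [gadH_adj, HA, k1, k2, false_and, and_false, true_and, false_or, or_false, ne_eq,
      not_true_eq_false] at a1
    have f := h.far k 2 le_rfl (by omega)
    have f1 : (w k).1 ≠ (w (k + 2)).1 := fun e => ne2 k e (k0.trans k2.symm)
    refine f.2 (Or.inl ⟨k0, k2, f1, ?_⟩)
    have hn' : ¬C.Adj y x := fun e => hn e.symm
    rcases a0.2 with e | ⟨e, e'⟩ <;> rcases a1.2 with g | ⟨g, g'⟩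
    · exact absurd (e.trans g.symm) f1
    · rw [← e] at g'
      rcases g with g | g <;> rcases g' with g' | g' <;> simp_all
    · rw [← g] at e'
      rcases e with e | e <;> rcases e' with e' | e' <;> simp_all
    · rcases e with e | e <;> rcases g with g | g <;> simp_all
  have a2 := h.adj (k + 2)
  have a3 := h.adj (k + 3)
  have a4 := h.adj (k + 4)
  have b1 := ne2 (k + 1)
  have b2 := ne2 (k + 2)
  have b3 := ne2 (k + 3)
  have l1 := (w (k + 1)).2.2
  have l2 := (w (k + 2)).2.2
  have l3 := (w (k + 3)).2.2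
  have l4 := (w (k + 4)).2.2
  have l5 := (w (k + 5)).2.2
  simp only [gadH_adj, HA, Nat.add_assoc, Nat.reduceAdd] at a1 a2 a3 a4 b1 b2 b3
  obtain ⟨-, -, e1, g1⟩ := ((a1.resolve_left (by omega)).resolve_left (by omega)).resolve_left
    (by omega)
  obtain ⟨-, -, e2, g2⟩ := ((a2.resolve_left (by omega)).resolve_left (by omega)).resolve_left
    (by omega)
  have b1 := b1 (e1.trans e2)
  obtain ⟨-, -, e3, g3⟩ := ((a3.resolve_left (by omega)).resolve_left (by omega)).resolve_left
    (by omega)
  have b2 := b2 (e2.trans e3)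
  obtain ⟨-, z5, e4, g4⟩ := ((a4.resolve_left (by omega)).resolve_left (by omega)).resolve_left
    (by omega)
  have b3 := b3 (e3.trans e4)
  by_cases n5 : n = 5
  · subst n5
    rw [h.per] at z5
    exact z5 k0
  · obtain ⟨t, rfl⟩ := ho
    refine (h.far k 5 (by omega) (by omega)).2 (Or.inr (Or.inl ⟨k0, by omega, ?_⟩))
    rw [← e4, ← e3, ← e2, ← e1]
    exact a0.2

theorem few {p a b c d : V × Fin 6} (hp : (p.2 : ℕ) ≠ 0) (ha : (gadH C x y).Adj p a)
    (hb : (gadH C x y).Adj p b) (hc : (gadH C x y).Adj p c) (hd : (gadH C x y).Adj p d) :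
    a = b ∨ a = c ∨ a = d ∨ b = c ∨ b = d ∨ c = d := by
  obtain ⟨u, v, z, h⟩ : ∃ u v z, ∀ q, (gadH C x y).Adj p q → q = u ∨ q = v ∨ q = z := by
    obtain ⟨p, l⟩ := p
    by_cases h1 : l.val = 1 ∨ l.val = 5
    · by_cases h2 : p = x ∨ p = y
      · refine ⟨(x, 0), (y, 0), (p, if l.val = 1 then 2 else 4), fun q hq => ?_⟩
        obtain ⟨q, m⟩ := q
        rcases hq with e | e | ⟨e, -, e'⟩ | ⟨-, e1, e2, e3⟩
        · exact absurd e.1 hp
        · exact absurd e.1 hp
        · obtain rfl : m = 0 := Fin.ext e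
          have : q = x ∨ q = y := e'.elim (fun g => by rw [show q = p from g]; exact h2) And.left
          exact this.imp (congrArg (·, 0)) fun g => Or.inl (congrArg (·, 0) g)
        · refine Or.inr (Or.inr (Prod.ext e2.symm (Fin.ext ?_)))
          have := m.2
          dsimp only at *
          split_ifs <;> simp <;> omega
      · refine ⟨(p, 0), (p, 0), (p, if l.val = 1 then 2 else 4), fun q hq => ?_⟩
        obtain ⟨q, m⟩ := q
        rcases hq with e | e | ⟨e, -, e'⟩ | ⟨-, e1, e2, e3⟩
        · exact absurd e.1 hp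
        · exact absurd e.1 hp
        · obtain rfl : m = 0 := Fin.ext e
          exact Or.inl (Prod.ext (e'.resolve_right fun g => h2 g.2) rfl)
        · refine Or.inr (Or.inr (Prod.ext e2.symm (Fin.ext ?_)))
          have := m.2
          dsimp only at *
          split_ifs <;> simp <;> omega
    · refine ⟨(p, ⟨l.val - 1, by omega⟩), (p, ⟨(l.val + 1) % 6, by omega⟩), (p, 0),
        fun q hq => ?_⟩
      obtain ⟨q, m⟩ := q
      rcases hq with e | e | ⟨e, e', -⟩ | ⟨-, e1, e2, e3 | e3⟩
      · exact absurd e.1 hp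
      · exact absurd e.1 hp
      · exact absurd e' h1
      · refine Or.inr (Or.inl (Prod.ext e2.symm (Fin.ext ?_)))
        have := m.2
        dsimp only at *
        omega
      · refine Or.inl (Prod.ext e2.symm (Fin.ext ?_))
        dsimp only at *
        omega
  rcases h a ha with e | e | e <;> rcases h b hb with f | f | f <;>
    rcases h c hc with g | g | g <;> rcases h d hd with i | i | i <;> simp [e, f, g, i]

theorem gad_berge (hxy : x ≠ y) (hn : ¬C.Adj x y) (c : V → Bool)
    (hc : ∀ a b, C.Adj a b → c a ≠ c b) : Berge (gadH C x y)ᶜ := by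
  refine ⟨?_, ?_⟩
  · rintro ⟨n, w0, ho, h5, hw⟩
    have h := hw.cyc h5
    generalize (fun k => w0 (k % n)) = w at h
    have far : ∀ k d, 2 ≤ d → d + 2 ≤ n → (gadH C x y).Adj (w k) (w (k + d)) := fun k d a b =>
      by_contra fun e => (h.far k d a b).2 ⟨(h.far k d a b).1, e⟩
    by_cases n5 : n = 5
    · subst n5
      refine no_cyc hxy hn c hc (w := fun k => w (2 * k)) ho h5 ⟨fun k => ?_, fun k => ?_,
        fun k d d2 d3 => ?_⟩
      · rw [show 2 * (k + 5) = 2 * k + 5 + 5 by omega, h.per, h.per]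
      · exact far (2 * k) 2 le_rfl (by omega)
      · obtain rfl | rfl : d = 2 ∨ d = 3 := by omega
        · have := h.adj (2 * k + 4)
          rw [show 2 * k + 4 + 1 = 2 * k + 5 by omega, h.per] at this
          exact this.symm
        · have := h.adj (2 * k)
          rw [← h.per (2 * k + 1)] at this
          exact this
    by_cases hz : ∀ k, (w k).2 = 0
    · refine Nat.not_even_iff_odd.2 ho (h.even (fun p => c p.1) fun k => hc _ _ ?_)
      have := h.adj k
      rw [show w k = ((w k).1, 0) from Prod.ext rfl (hz _),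
        show w (k + 1) = ((w (k + 1)).1, 0) from Prod.ext rfl (hz _)] at this
      exact lift_adj.1 this
    push Not at hz
    obtain ⟨k, hk⟩ := hz
    obtain ⟨t, rfl⟩ := ho
    rcases few (fun e => hk (Fin.ext e)) (far k 2 (by omega) (by omega))
      (far k 3 (by omega) (by omega)) (far k 4 (by omega) (by omega))
      (far k 5 (by omega) (by omega)) with e | e | e | e | e | e
    · exact (h.adj (k + 2)).ne e
    · exact (h.far (k + 2) 2 (by omega) (by omega)).1 e
    · exact (h.far (k + 2) 3 (by omega) (by omega)).1 e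
    · exact (h.adj (k + 3)).ne e
    · exact (h.far (k + 3) 2 (by omega) (by omega)).1 e
    · exact (h.adj (k + 4)).ne e
  · rw [compl_compl]
    rintro ⟨n, w, ho, h5, hw⟩
    exact no_cyc hxy hn c hc ho h5 (hw.cyc h5)

end Pool.Agent.P.MP_7fd347_lc
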