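import Pool.Agent.P.MP_7fd347_lc.Sound

/-! A satisfying assignment gives an odd induced path. -/

set_option autoImplicit false

namespace Pool.Agent.P.MP_7fd347_lc

variable {n m : ℕ} {P N : ℕ → ℕ → Prop}

def Sel (a : ℕ → Prop) (v : Vx) : Prop :=
  ((v.1 = 2 ∨ v.1 = 3 ∨ v.1 = 12) → a v.2.1) ∧ (((4 ≤ v.1 ∧ v.1 < 10) ∨ 13 ≤ v.1) → ¬a v.2.1)

def sub (n m : ℕ) (P N : ℕ → ℕ → Prop) (a : ℕ → Prop) : SimpleGraph Vx where
  Adj u v := A n m P N u v ∧ Sel a u ∧ Sel a v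
  symm := ⟨fun _ _ h => ⟨(core n m P N).adj_symm h.1, h.2.2, h.2.1⟩⟩
  loopless := ⟨fun _ h => (core n m P N).irrefl h.1⟩

def col2 (u : Vx) : Bool :=
  decide (u.1 = 0 ∨ u.1 = 6 ∨ u.1 = 3 ∨ u.1 = 5 ∨ u.1 = 9 ∨ u.1 = 11 ∨ u.1 = 12 ∨ u.1 = 13 ∨ u.1 = 15)

theorem sub_col {a : ℕ → Prop} {u v : Vx} (h : (sub n m P N a).Adj u v) : col2 u ≠ col2 v := by
  obtain ⟨t, i, j⟩ := u
  obtain ⟨s, k, l⟩ := v
  obtain ⟨h, ⟨h1, h2⟩, h3, h4⟩ := h
  simp only [col2, ne_eq, decide_eq_decide]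
  simp only [A, B, E, Prod.mk.injEq] at h h1 h2 h3 h4
  have c1 : ¬(i = k ∧ (t = 2 ∨ t = 3 ∨ t = 12) ∧ ((4 ≤ s ∧ s < 10) ∨ 13 ≤ s)) := by
    rintro ⟨rfl, x, y⟩
    exact h4 y (h1 x)
  have c2 : ¬(i = k ∧ (s = 2 ∨ s = 3 ∨ s = 12) ∧ ((4 ≤ t ∧ t < 10) ∨ 13 ≤ t)) := by
    rintro ⟨rfl, x, y⟩
    exact h2 y (h3 x)
  clear h1 h2 h3 h4
  omega

theorem reach {a : ℕ → Prop} (ha : ∀ j < m, ∃ i, (a i ∧ P i j) ∨ (¬a i ∧ N i j)) :
    (sub n m P N a).Reachable (0, 0, 0) (1, 0, 0) := by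
  have r1 : ∀ l < 2, ∀ s ≤ n, (sub n m P N a).Reachable (l, 0, 0) (l, s, 0) := by
    intro l hl s hs
    induction s with
    | zero => rfl
    | succ s ih =>
      refine (ih (by omega)).trans ?_
      have hs : s < n := hs
      by_cases c : a s
      · refine (SimpleGraph.Adj.reachable (v := (2 + l, s, 0)) ?_).trans
          (SimpleGraph.Adj.reachable ?_) <;>
        obtain rfl | rfl : l = 0 ∨ l = 1 := by omega
        all_goals simp [sub, A, B, E, Sel, c, hs]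
      · refine (((SimpleGraph.Adj.reachable (v := (4 + l, s, 0)) ?_).trans
          (SimpleGraph.Adj.reachable (v := (6 + l, s, 0)) ?_)).trans
          (SimpleGraph.Adj.reachable (v := (8 + l, s, 0)) ?_)).trans
          (SimpleGraph.Adj.reachable ?_) <;>
        obtain rfl | rfl : l = 0 ∨ l = 1 := by omega
        all_goals simp [sub, A, B, E, Sel, c, hs]
  have r2 : ∀ j ≤ m, (sub n m P N a).Reachable (10, 0, 0) (10, 0, j) := by
    intro j hj
    induction j with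
    | zero => rfl
    | succ j ih =>
      refine (ih (by omega)).trans ?_
      obtain ⟨i, ⟨c, p⟩ | ⟨c, p⟩⟩ := ha j hj
      · refine (SimpleGraph.Adj.reachable (v := (12, i, j)) ?_).trans
          (SimpleGraph.Adj.reachable ?_) <;> simp [sub, A, B, E, Sel, c, p]
      · refine (((SimpleGraph.Adj.reachable (v := (13, i, j)) ?_).trans
          (SimpleGraph.Adj.reachable (v := (14, i, j)) ?_)).trans
          (SimpleGraph.Adj.reachable (v := (15, i, j)) ?_)).trans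
          (SimpleGraph.Adj.reachable ?_) <;> simp [sub, A, B, E, Sel, c, p]
  refine ((r1 0 (by omega) n le_rfl).trans ?_).trans (r1 1 (by omega) n le_rfl).symm
  refine ((SimpleGraph.Adj.reachable ?_).trans (r2 m le_rfl).symm).trans
    ((SimpleGraph.Adj.reachable (v := (11, 0, 0)) ?_).trans (SimpleGraph.Adj.reachable ?_)) <;>
    simp [sub, A, B, E, Sel]

theorem core_nadj : ¬(core n m P N).Adj (0, 0, 0) (1, 0, 0) := by
  simp [core, A, B, E]

theorem core_iff (hn : 0 < n) (hP : ∀ i j, P i j → i < n) (hN : ∀ i j, N i j → i < n) :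
    (∃ a : ℕ → Prop, ∀ j < m, ∃ i, (a i ∧ P i j) ∨ (¬a i ∧ N i j)) ↔
      ¬EvenPair (core n m P N) (0, 0, 0) (1, 0, 0) := by
  constructor
  · rintro ⟨a, ha⟩ h
    obtain ⟨L, w, hw, h0, hL⟩ := exists_indPath (reach (n := n) ha)
    have ho : ¬Even L := fun e => by
      have := (parity col2 L fun i hi =>
        sub_col ((hw i hi.le (i + 1) hi).2.2 (Or.inl rfl))).2 e
      rw [h0, hL] at this
      exact absurd this (by decide)
    have L0 : L ≠ 0 := by rintro rfl; exact ho (by decide)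
    have sel : ∀ i ≤ L, Sel a (w i) := fun i hi => by
      by_cases c : i = 0
      · exact ((hw i hi 1 (by omega)).2.2 (by omega)).2.1
      · exact ((hw i hi (i - 1) (by omega)).2.2 (by omega)).2.1
    refine ho (h.2.2 L w (fun i hi j hj => ⟨(hw i hi j hj).1, ?_⟩) h0 hL)
    rw [← (hw i hi j hj).2]
    exact ⟨fun e => ⟨e, sel i hi, sel j hj⟩, fun e => e.1⟩
  · intro h
    by_contra hc
    refine h ⟨by simp, core_nadj, fun L w hw h0 hL => by_contra fun ho => hc ?_⟩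
    obtain ⟨S, X⟩ := exists_ax hw h0 hL ho
    exact X.sat hn hP hN

end Pool.Agent.P.MP_7fd347_lc
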