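import Pool.Agent.P.MP_7fd347_lc.Basic

/-! The core graph of a formula: bipartite plus one edge. -/

set_option autoImplicit false

namespace Pool.Agent.P.MP_7fd347_lc

abbrev Vx := ℕ × ℕ × ℕ

def E (n : ℕ) (P N : ℕ → ℕ → Prop) (a i j b k l : ℕ) : Prop :=
  (j = 0 ∧ l = 0 ∧ i < n ∧
    ((k = i ∧ ((a < 2 ∧ (b = a + 2 ∨ b = a + 4)) ∨ (4 ≤ a ∧ a < 8 ∧ b = a + 2) ∨
      ((a = 2 ∨ a = 3) ∧ (b = 6 ∨ b = 7)))) ∨ (k = i + 1 ∧ b < 2 ∧ (a = b + 2 ∨ a = b + 8)))) ∨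
  (a = 11 ∧ i = 0 ∧ j = 0 ∧ l = 0 ∧ ((b = 1 ∧ k = n) ∨ (b = 10 ∧ k = 0))) ∨
  (a = 12 ∧ ((b = 10 ∧ k = 0 ∧ (l = j ∨ l = j + 1)) ∨ ((b = 6 ∨ b = 7) ∧ k = i ∧ l = 0)) ∧ P i j) ∨
  (((a = 13 ∧ b = 10 ∧ k = 0 ∧ l = j) ∨ (a = 15 ∧ b = 10 ∧ k = 0 ∧ l = j + 1) ∨
    (a = 14 ∧ k = i ∧ (((b = 13 ∨ b = 15) ∧ l = j) ∨ ((b = 2 ∨ b = 3) ∧ l = 0)))) ∧ N i j)

def B (n : ℕ) (P N : ℕ → ℕ → Prop) (u v : Vx) : Prop :=
  E n P N u.1 u.2.1 u.2.2 v.1 v.2.1 v.2.2 ∨ E n P N v.1 v.2.1 v.2.2 u.1 u.2.1 u.2.2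

def A (n m : ℕ) (P N : ℕ → ℕ → Prop) (u v : Vx) : Prop :=
  B n P N u v ∨ (u = (0, n, 0) ∧ v = (10, 0, m)) ∨ (v = (0, n, 0) ∧ u = (10, 0, m))

def col (u : Vx) : Bool := decide (u.1 < 2 ∨ u.1 = 6 ∨ u.1 = 7 ∨ u.1 = 10 ∨ u.1 = 14)

variable {n m : ℕ} {P N : ℕ → ℕ → Prop}

theorem B.symm {u v : Vx} (h : B n P N u v) : B n P N v u := Or.symm h

theorem B.col_ne {u v : Vx} (h : B n P N u v) : col u ≠ col v := by
  simp only [col, ne_eq, decide_eq_decide]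
  unfold B E at h
  omega

def core (n m : ℕ) (P N : ℕ → ℕ → Prop) : SimpleGraph Vx where
  Adj := A n m P N
  symm := ⟨fun _ _ h => h.imp B.symm Or.symm⟩
  loopless := ⟨fun u h => by
    rcases h with h | ⟨a, b⟩ | ⟨a, b⟩
    · exact h.col_ne rfl
    all_goals simp [a] at b⟩

theorem nb_a {l s : ℕ} {v : Vx} (hl : l < 2) (hs : s < n) (h : A n m P N (l, s, 0) v) :
    v = (2 + l, s, 0) ∨ v = (4 + l, s, 0) ∨
      (0 < s ∧ (v = (2 + l, s - 1, 0) ∨ v = (8 + l, s - 1, 0))) := by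
  obtain ⟨b, k, j⟩ := v
  simp only [A, B, E, Prod.mk.injEq] at h ⊢
  omega

theorem nb_b {v : Vx} (h : A n m P N (1, n, 0) v) :
    v = (11, 0, 0) ∨ v = (3, n - 1, 0) ∨ v = (9, n - 1, 0) := by
  obtain ⟨b, k, j⟩ := v
  simp only [A, B, E, Prod.mk.injEq] at h ⊢
  omega

theorem nb_g {l s : ℕ} {v : Vx} (hl : l < 2) (h : A n m P N (4 + l, s, 0) v) :
    v = (l, s, 0) ∨ v = (6 + l, s, 0) := by
  obtain ⟨b, k, j⟩ := v
  simp only [A, B, E, Prod.mk.injEq] at h ⊢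
  omega

theorem nb_h {l s : ℕ} {v : Vx} (hl : l < 2) (h : A n m P N (8 + l, s, 0) v) :
    v = (6 + l, s, 0) ∨ v = (l, s + 1, 0) := by
  obtain ⟨b, k, j⟩ := v
  simp only [A, B, E, Prod.mk.injEq] at h ⊢
  omega

theorem nb_r {v : Vx} (h : A n m P N (11, 0, 0) v) : v = (1, n, 0) ∨ v = (10, 0, 0) := by
  obtain ⟨b, k, j⟩ := v
  simp only [A, B, E, Prod.mk.injEq] at h ⊢
  omega

theorem nb_12 {i j : ℕ} {v : Vx} (h : A n m P N (12, i, j) v) :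
    v = (10, 0, j) ∨ v = (10, 0, j + 1) ∨ v = (6, i, 0) ∨ v = (7, i, 0) := by
  obtain ⟨b, k, j⟩ := v
  simp only [A, B, E, Prod.mk.injEq] at h ⊢
  omega

theorem nb_13 {i j : ℕ} {v : Vx} (h : A n m P N (13, i, j) v) :
    v = (10, 0, j) ∨ v = (14, i, j) := by
  obtain ⟨b, k, j⟩ := v
  simp only [A, B, E, Prod.mk.injEq] at h ⊢
  omega

theorem nb_14 {i j : ℕ} {v : Vx} (h : A n m P N (14, i, j) v) :
    v = (13, i, j) ∨ v = (15, i, j) ∨ v = (2, i, 0) ∨ v = (3, i, 0) := by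
  obtain ⟨b, k, j⟩ := v
  simp only [A, B, E, Prod.mk.injEq] at h ⊢
  omega

theorem nb_15 {i j : ℕ} {v : Vx} (h : A n m P N (15, i, j) v) :
    v = (14, i, j) ∨ v = (10, 0, j + 1) := by
  obtain ⟨b, k, j⟩ := v
  simp only [A, B, E, Prod.mk.injEq] at h ⊢
  omega

theorem lit {u v : Vx} (h : A n m P N u v) :
    (u.1 = 12 → P u.2.1 u.2.2) ∧ (13 ≤ u.1 → N u.2.1 u.2.2) := by
  obtain ⟨a, i, j⟩ := u
  obtain ⟨b, k, l⟩ := v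
  simp only [A, B, E, Prod.mk.injEq] at h ⊢
  rcases h with ((h | h | ⟨h, -, p⟩ | ⟨h, p⟩) | (h | h | ⟨h, h', -⟩ | ⟨h, p⟩)) | h
  · omega
  · omega
  · exact ⟨fun _ => p, by omega⟩
  · exact ⟨by omega, fun _ => p⟩
  · omega
  · omega
  · omega
  · refine ⟨by omega, fun _ => ?_⟩
    rwa [show i = k by omega, show j = l by omega]
  · omega

theorem nb_t {l s : ℕ} {v : Vx} (hl : l < 2) (hs : s < n) (h : A n m P N (2 + l, s, 0) v) :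
    v = (l, s, 0) ∨ v = (l, s + 1, 0) ∨ (B n P N (2, s, 0) v ∧ B n P N (3, s, 0) v) := by
  have h' := (lit ((core n m P N).adj_symm h)).2
  obtain ⟨b, k, j⟩ := v
  by_cases c : b = 14
  · have := h' (by omega)
    obtain rfl : k = s := by
      simp only [A, B, E, Prod.mk.injEq] at h
      omega
    simp_all [B, E]
  · have : (b = l ∧ (k = s ∨ k = s + 1) ∧ j = 0) ∨ ((b = 6 ∨ b = 7) ∧ k = s ∧ j = 0) := by
      simp only [A, B, E, Prod.mk.injEq] at h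
      omega
    rcases this with ⟨rfl, rfl | rfl, rfl⟩ | ⟨rfl | rfl, rfl, rfl⟩ <;> simp [B, E, hs]

theorem nb_f {l s : ℕ} {v : Vx} (hl : l < 2) (hs : s < n) (h : A n m P N (6 + l, s, 0) v) :
    v = (4 + l, s, 0) ∨ v = (8 + l, s, 0) ∨ (B n P N (6, s, 0) v ∧ B n P N (7, s, 0) v) := by
  have h' := (lit ((core n m P N).adj_symm h)).1
  obtain ⟨b, k, j⟩ := v
  by_cases c : b = 12
  · have := h' c
    obtain rfl : k = s := by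
      simp only [A, B, E, Prod.mk.injEq] at h
      omega
    simp_all [B, E]
  · have : ((b = 4 + l ∨ b = 8 + l) ∧ k = s ∧ j = 0) ∨ ((b = 2 ∨ b = 3) ∧ k = s ∧ j = 0) := by
      simp only [A, B, E, Prod.mk.injEq] at h
      omega
    rcases this with ⟨rfl | rfl, rfl, rfl⟩ | ⟨rfl | rfl, rfl, rfl⟩ <;> simp [B, E, hs]

theorem nb_d {j : ℕ} {v : Vx} (hj : j < m) (h : A n m P N (10, 0, j) v) :
    (j = 0 ∧ v = (11, 0, 0)) ∨ ((v.1 = 12 ∨ v.1 = 15) ∧ v.2.2 + 1 = j) ∨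
      ((v.1 = 12 ∨ v.1 = 13) ∧ v.2.2 = j) := by
  obtain ⟨b, k, j⟩ := v
  simp only [A, B, E, Prod.mk.injEq] at h ⊢
  omega

theorem box {u v : Vx} (hP : ∀ i j, P i j → i < n ∧ j < m) (hN : ∀ i j, N i j → i < n ∧ j < m)
    (h : A n m P N u v) : u.1 < 16 ∧ u.2.1 ≤ n ∧ u.2.2 ≤ m := by
  obtain ⟨a, i, j⟩ := u
  obtain ⟨b, k, l⟩ := v
  simp only [A, B, E, Prod.mk.injEq] at h ⊢
  rcases h with ((h | h | ⟨h, h', p⟩ | ⟨h, p⟩) | (h | h | ⟨h, h', p⟩ | ⟨h, p⟩)) | h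
  · omega
  · omega
  · have := hP _ _ p; omega
  · have := hN _ _ p; omega
  · omega
  · omega
  · have := hP _ _ p; omega
  · have := hN _ _ p; omega
  · omega

end Pool.Agent.P.MP_7fd347_lc
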