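import Mathlib

/-! Induced paths, holes, Berge graphs and even pairs. -/

set_option autoImplicit false

namespace Pool.Agent.P.MP_7fd347_lc

variable {V : Type}

/-- `w 0, …, w n` is an induced path of length `n`. -/
def IndPath (G : SimpleGraph V) (n : ℕ) (w : ℕ → V) : Prop :=
  ∀ i ≤ n, ∀ j ≤ n, (w i = w j → i = j) ∧ (G.Adj (w i) (w j) ↔ i + 1 = j ∨ j + 1 = i)

/-- `w 0, …, w (n - 1)` is an induced cycle of length `n`. -/
def IndCycle (G : SimpleGraph V) (n : ℕ) (w : ℕ → V) : Prop :=
  ∀ i < n, ∀ j < n, (w i = w j → i = j) ∧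
    (G.Adj (w i) (w j) ↔ (i + 1) % n = j ∨ (j + 1) % n = i)

/-- `G` has an induced cycle of odd length at least five. -/
def HasOddHole (G : SimpleGraph V) : Prop := ∃ n w, Odd n ∧ 5 ≤ n ∧ IndCycle G n w

/-- Neither `G` nor its complement has an odd hole. -/
def Berge (G : SimpleGraph V) : Prop := ¬HasOddHole G ∧ ¬HasOddHole Gᶜ

/-- `x` and `y` are distinct, not adjacent, and every induced path between them is even. -/
def EvenPair (G : SimpleGraph V) (x y : V) : Prop :=
  x ≠ y ∧ ¬G.Adj x y ∧ ∀ n w, IndPath G n w → w 0 = x → w n = y → Even n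

/-- The graph with adjacency matrix `M`. -/
def matGraph (M : List (List Bool)) : SimpleGraph (Fin M.length) :=
  SimpleGraph.fromRel fun i j => (M.getD i []).getD j false = true

end Pool.Agent.P.MP_7fd347_lc
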