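import Pool.Agent.P.MP_7fd347_lc.Basic

/-! A gadget that leaves one candidate for an even pair. -/

set_option autoImplicit false

namespace Pool.Agent.P.MP_7fd347_lc

variable {V : Type} {C : SimpleGraph V} {x y : V}

def Own (x y a c : V) : Prop := a = c ∨ ((a = x ∨ a = y) ∧ (c = x ∨ c = y))

def HA (A : V → V → Prop) (x y a : V) (l : ℕ) (b : V) (m : ℕ) : Prop :=
  (l = 0 ∧ m = 0 ∧ a ≠ b ∧ ¬A a b) ∨ (l = 0 ∧ (m = 1 ∨ m = 5) ∧ Own x y a b) ∨
    (m = 0 ∧ (l = 1 ∨ l = 5) ∧ Own x y b a) ∨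
      (l ≠ 0 ∧ m ≠ 0 ∧ a = b ∧ (l + 1 = m ∨ m + 1 = l))

def gadH (C : SimpleGraph V) (x y : V) : SimpleGraph (V × Fin 6) where
  Adj p q := HA C.Adj x y p.1 p.2 q.1 q.2
  symm := ⟨fun p q h => by
    unfold HA at *
    rcases h with ⟨a, b, c, d⟩ | h | h | ⟨a, b, c, d⟩
    · exact Or.inl ⟨b, a, c.symm, fun e => d e.symm⟩
    · exact Or.inr (Or.inr (Or.inl h))
    · exact Or.inr (Or.inl h)
    · exact Or.inr (Or.inr (Or.inr ⟨b, a, c.symm, d.symm⟩))⟩
  loopless := ⟨fun p h => by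
    unfold HA at h
    rcases h with ⟨-, -, c, -⟩ | h | h | h
    · exact c rfl
    all_goals omega⟩

theorem gadH_adj {p q : V × Fin 6} :
    (gadH C x y).Adj p q ↔ HA C.Adj x y p.1 p.2 q.1 q.2 := Iff.rfl

theorem own_refl (a : V) : Own x y a a := Or.inl rfl

theorem lift_adj {a b : V} : (gadH C x y)ᶜ.Adj (a, 0) (b, 0) ↔ C.Adj a b := by
  simp only [SimpleGraph.compl_adj, gadH_adj, HA, ne_eq, Prod.mk.injEq, and_true, Fin.val_zero]
  constructor
  · rintro ⟨h1, h2⟩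
    by_contra h3
    exact h2 (Or.inl ⟨trivial, trivial, h1, h3⟩)
  · intro h
    refine ⟨h.ne, ?_⟩
    rintro (⟨-, -, -, h⟩ | h | h | h)
    · contradiction
    all_goals omega

def liftE (C : SimpleGraph V) (x y : V) : C ↪g (gadH C x y)ᶜ where
  toFun a := (a, 0)
  inj' _ _ h := congrArg Prod.fst h
  map_rel_iff' := lift_adj

theorem not_even_of_p4 {W : Type} {H : SimpleGraph W} {s p q r : W} (h1 : H.Adj s p)
    (h2 : H.Adj p q) (h3 : H.Adj q r) (n1 : s ≠ q) (n2 : ¬H.Adj s q) (n3 : p ≠ r)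
    (n4 : ¬H.Adj p r) (n5 : s ≠ r) (n6 : ¬H.Adj s r) : ¬EvenPair Hᶜ p q := by
  intro h
  have e1 := h1.ne
  have e2 := h2.ne
  have e3 := h3.ne
  have s1 := h1.symm
  have s2 := h2.symm
  have s3 := h3.symm
  have m2 : ¬H.Adj q s := fun e => n2 e.symm
  have m4 : ¬H.Adj r p := fun e => n4 e.symm
  have m6 : ¬H.Adj r s := fun e => n6 e.symm
  refine absurd (h.2.2 3 (fun i => [p, r, s, q].getD i p) (fun i hi j hj => ?_) rfl rfl) (by decide)
  interval_cases i <;> interval_cases j <;>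
    simp [*, e1.symm, e2.symm, e3.symm, n1.symm, n3.symm, n5.symm]

theorem EvenPair.symm {W : Type} {G : SimpleGraph W} {p q : W} (h : EvenPair G p q) :
    EvenPair G q p := by
  refine ⟨h.1.symm, fun e => h.2.1 e.symm, fun n w hw h0 hn => ?_⟩
  refine h.2.2 n (fun i => w (n - i)) (fun i hi j hj => ⟨fun e => ?_, ?_⟩) (by simpa) (by simpa)
  · have := (hw (n - i) (by omega) (n - j) (by omega)).1 e
    omega
  · rw [(hw (n - i) (by omega) (n - j) (by omega)).2]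
    omega

theorem even_only {p q : V × Fin 6} (h : EvenPair (gadH C x y)ᶜ p q) :
    EvenPair (gadH C x y)ᶜ (x, 0) (y, 0) := by
  have k1 : ∀ a b : V, Own x y a b → ¬EvenPair (gadH C x y)ᶜ (a, 0) (b, 1) := fun a b o =>
    not_even_of_p4 (s := (b, 5)) (r := (b, 2)) (by simp [gadH_adj, HA, o])
      (by simp [gadH_adj, HA, o]) (by simp [gadH_adj, HA]) (by simp) (by simp [gadH_adj, HA])
      (by simp) (by simp [gadH_adj, HA]) (by simp) (by simp [gadH_adj, HA])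
  have k5 : ∀ a b : V, Own x y a b → ¬EvenPair (gadH C x y)ᶜ (a, 0) (b, 5) := fun a b o =>
    not_even_of_p4 (s := (b, 1)) (r := (b, 4)) (by simp [gadH_adj, HA, o])
      (by simp [gadH_adj, HA, o]) (by simp [gadH_adj, HA]) (by simp) (by simp [gadH_adj, HA])
      (by simp) (by simp [gadH_adj, HA]) (by simp) (by simp [gadH_adj, HA])
  have k2 : ∀ (a : V) (l m : Fin 6), l.val ≠ 0 → l.val + 1 = m →
      ¬EvenPair (gadH C x y)ᶜ (a, l) (a, m) := by
    intro a l m h0 h1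
    refine not_even_of_p4 (s := (a, l - 1)) (r := (a, m + 1)) ?_ ?_ ?_ ?_ ?_ ?_ ?_ ?_ ?_ <;>
      fin_cases l <;> fin_cases m <;> simp at h0 h1 <;> simp [gadH_adj, HA, own_refl]
  obtain ⟨a, l⟩ := p
  obtain ⟨b, m⟩ := q
  have ha : (gadH C x y).Adj (a, l) (b, m) := by
    by_contra e
    exact h.2.1 ⟨h.1, e⟩
  rcases ha with ⟨h1, h2, h3, h4⟩ | ⟨h1, h2 | h2, h3⟩ | ⟨h1, h2 | h2, h3⟩ | ⟨h1, h2, h3, h4 | h4⟩
  · obtain rfl : l = 0 := Fin.ext h1
    obtain rfl : m = 0 := Fin.ext h2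
    by_cases o : Own x y a b
    · rcases o with o | ⟨rfl | rfl, rfl | rfl⟩
      · exact absurd o h3
      · exact absurd rfl h3
      · exact h
      · exact h.symm
      · exact absurd rfl h3
    · have o' : ¬Own x y b a := fun e => o (e.imp Eq.symm And.symm)
      have h3 : a ≠ b := h3
      have h4 : ¬C.Adj a b := h4
      exact absurd h (not_even_of_p4 (s := (a, 1)) (r := (b, 1)) (by simp [gadH_adj, HA, own_refl])
        (by simp [gadH_adj, HA, h3, h4]) (by simp [gadH_adj, HA, own_refl]) (by simp)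
        (by simp [gadH_adj, HA, o']) (by simp) (by simp [gadH_adj, HA, o]) (by simp [h3])
        (by simp [gadH_adj, HA]))
  · obtain rfl : l = 0 := Fin.ext h1
    obtain rfl : m = 1 := Fin.ext h2
    exact absurd h (k1 _ _ h3)
  · obtain rfl : l = 0 := Fin.ext h1
    obtain rfl : m = 5 := Fin.ext h2
    exact absurd h (k5 _ _ h3)
  · obtain rfl : m = 0 := Fin.ext h1
    obtain rfl : l = 1 := Fin.ext h2
    exact absurd h.symm (k1 _ _ h3)
  · obtain rfl : m = 0 := Fin.ext h1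
    obtain rfl : l = 5 := Fin.ext h2
    exact absurd h.symm (k5 _ _ h3)
  · obtain rfl : a = b := h3
    exact absurd h (k2 _ _ _ h1 h4)
  · obtain rfl : a = b := h3
    exact absurd h.symm (k2 _ _ _ h2 h4)

theorem even_lift (h : EvenPair C x y) : EvenPair (gadH C x y)ᶜ (x, 0) (y, 0) := by
  refine ⟨fun e => h.1 (congrArg Prod.fst e), fun e => h.2.1 (lift_adj.1 e), fun n w hw h0 hn => ?_⟩
  by_cases hz : ∀ i ≤ n, (w i).2 = 0
  · have e : ∀ i ≤ n, w i = ((w i).1, 0) := fun i hi => Prod.ext rfl (hz i hi)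
    refine h.2.2 n (fun i => (w i).1) (fun i hi j hj => ⟨fun e' => (hw i hi j hj).1 ?_, ?_⟩)
      (by simp [h0]) (by simp [hn])
    · rw [e i hi, e j hj]; exact Prod.ext e' rfl
    · rw [← (hw i hi j hj).2, e i hi, e j hj, lift_adj]
  by_contra hodd
  rw [Nat.even_iff] at hodd
  have far : ∀ i ≤ n, ∀ j ≤ n, i ≠ j →
      ((gadH C x y).Adj (w i) (w j) ↔ ¬(i + 1 = j ∨ j + 1 = i)) := fun i hi j hj hne => by
    rw [← (hw i hi j hj).2, SimpleGraph.compl_adj]
    have := mt (hw i hi j hj).1 hne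
    exact ⟨fun a b => b.2 a, fun a => by_contra fun b => a ⟨this, b⟩⟩
  have n1 : n ≠ 1 := by
    rintro rfl
    have := (hw 0 (by omega) 1 le_rfl).2.2 (Or.inl rfl)
    rw [h0, hn] at this
    exact h.2.1 (lift_adj.1 this)
  have mid : ∀ k ≤ n, ((w k).2 : ℕ) ≠ 0 → 2 ≤ k ∧ k + 2 ≤ n ∧ ((w k).1 = x ∨ (w k).1 = y) := by
    intro k hk hl
    have k0 : k ≠ 0 := by rintro rfl; rw [h0] at hl; exact hl rfl
    have kn : k ≠ n := by rintro rfl; rw [hn] at hl; exact hl rfl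
    have f0 := far 0 (by omega) k hk k0.symm
    have fn := far n le_rfl k hk kn.symm
    rw [h0, gadH_adj] at f0
    rw [hn, gadH_adj] at fn
    simp only [HA, Own, Fin.val_zero, hl, true_or, or_true, true_and, false_and, and_false,
      false_or, or_false, ne_eq, not_true_eq_false] at f0 fn
    by_cases c : (((w k).2 : ℕ) = 1 ∨ ((w k).2 : ℕ) = 5) ∧ ((w k).1 = x ∨ (w k).1 = y)
    · have := f0.1 ⟨c.1, Or.inr c.2⟩
      have := fn.1 ⟨c.1, Or.inr c.2⟩
      exact ⟨by omega, by omega, c.2⟩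
    · exfalso
      by_cases k1 : k = 1
      · obtain ⟨a, b | b⟩ := fn.2 (by omega)
        · exact c ⟨a, Or.inr b.symm⟩
        · exact c ⟨a, b⟩
      · obtain ⟨a, b | b⟩ := f0.2 (by omega)
        · exact c ⟨a, Or.inl b.symm⟩
        · exact c ⟨a, b⟩
  push Not at hz
  obtain ⟨k, hk, hl⟩ := hz
  have hl : ((w k).2 : ℕ) ≠ 0 := fun e => hl (Fin.ext e)
  obtain ⟨m1, m2, m3⟩ := mid k hk hl
  obtain ⟨j, j0, jn, jj, jk⟩ : ∃ j, 0 < j ∧ j < n ∧ (j = 1 ∨ j + 1 = n) ∧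
      (j + 1 < k ∨ k + 1 < j) := by
    by_cases k2 : k = 2
    · exact ⟨n - 1, by omega⟩
    · exact ⟨1, by omega⟩
  have jz : ((w j).2 : ℕ) = 0 := by
    by_contra e
    have := mid j jn.le e
    omega
  have := (far j jn.le k hk (by omega)).2 (by omega)
  rw [gadH_adj] at this
  simp only [HA, Own, jz, hl, true_and, false_and, and_false, false_or, or_false, ne_eq,
    not_true_eq_false] at this
  have hj : (w j).1 = x ∨ (w j).1 = y := by
    rcases this.2 with e | e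
    · rw [e]; exact m3
    · exact e.1
  rcases hj with e | e
  · have := (hw j jn.le 0 (by omega)).1 (by rw [h0]; exact Prod.ext e (Fin.ext jz))
    omega
  · have := (hw j jn.le n le_rfl).1 (by rw [hn]; exact Prod.ext e (Fin.ext jz))
    omega

theorem exists_even_iff : (∃ p q, EvenPair (gadH C x y)ᶜ p q) ↔ EvenPair C x y :=
  ⟨fun ⟨_, _, h⟩ => EvenPair.comap (liftE C x y) (even_only h), fun h => ⟨_, _, even_lift h⟩⟩

theorem gad_delete (a b : V) :
    (gadH C x y)ᶜ.deleteEdges {s((a, 0), (b, 0))} = (gadH (C.deleteEdges {s(a, b)}) x y)ᶜ := by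
  ext ⟨c, l⟩ ⟨d, m⟩
  by_cases hz : l = 0 ∧ m = 0
  · obtain ⟨rfl, rfl⟩ := hz
    simp [lift_adj, -SimpleGraph.compl_adj]
  · have : ¬(l.val = 0 ∧ m.val = 0) := fun e => hz ⟨Fin.ext e.1, Fin.ext e.2⟩
    have e1 : ∀ A : Prop, ¬(l.val = 0 ∧ m.val = 0 ∧ A) :=
      fun A e => this ⟨e.1, e.2.1⟩
    have e2 : s((c, l), (d, m)) ≠ s(((a, 0) : V × Fin 6), (b, 0)) := by
      intro e
      simp only [Sym2.eq_iff, Prod.mk.injEq] at e
      exact hz (e.elim (fun e => ⟨e.1.2, e.2.2⟩) fun e => ⟨e.1.2, e.2.2⟩)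
    simp only [SimpleGraph.deleteEdges_adj, SimpleGraph.compl_adj, gadH_adj, HA, e1, e2,
      Set.mem_singleton_iff, false_or, not_false_eq_true, and_true]

end Pool.Agent.P.MP_7fd347_lc
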