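import Pool.Agent.P.MP_7fd347_lc.Compl
import Pool.Agent.P.MP_7fd347_lc.Berge
import Pool.Agent.Lib.PolyTime.Cook

/-! The reduction from satisfiability. -/

set_option autoImplicit false

namespace Pool.Agent.P.MP_7fd347_lc

open Pool.Agent.Lib.PolyTime N68a2faeb

section
variable {V V' : Type} {G : SimpleGraph V} {G' : SimpleGraph V'}

theorem EvenPair.of_range (e : G ↪g G') (hr : ∀ a b, G'.Adj a b → ∃ c, e c = a) {x y : V}
    (h : EvenPair G x y) : EvenPair G' (e x) (e y) := by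
  refine ⟨fun c => h.1 (e.injective c), fun c => h.2.1 (e.map_adj_iff.1 c), fun n w hw h0 hn => ?_⟩
  by_cases n0 : n = 0
  · simp [n0]
  have : ∀ i, ∃ c, i ≤ n → e c = w i := fun i => by
    by_cases hi : i ≤ n
    · by_cases c : i = 0
      · exact (hr _ _ ((hw i hi 1 (by omega)).2.2 (by omega))).imp fun _ a _ => a
      · exact (hr _ _ ((hw i hi (i - 1) (by omega)).2.2 (by omega))).imp fun _ a _ => a
    · exact ⟨x, fun c => absurd c hi⟩
  choose u hu using this
  refine h.2.2 n u (fun i hi j hj => ⟨fun c => (hw i hi j hj).1 ?_, ?_⟩)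
    (e.injective ((hu 0 (by omega)).trans h0)) (e.injective ((hu n le_rfl).trans hn))
  · rw [← hu i hi, ← hu j hj, c]
  · rw [← (hw i hi j hj).2, ← hu i hi, ← hu j hj, e.map_adj_iff]

theorem iso_even (e : G ≃g G') : (∃ u v, EvenPair G u v) ↔ ∃ u v, EvenPair G' u v :=
  ⟨fun ⟨u, v, h⟩ => ⟨e u, e v, EvenPair.comap e.symm.toEmbedding (by simpa using h)⟩,
    fun ⟨u, v, h⟩ => ⟨e.symm u, e.symm v, EvenPair.comap e.toEmbedding (by simpa using h)⟩⟩

theorem iso_berge (e : G ≃g G') (h : ∃ a b, G'.Adj a b ∧ Berge (G'.deleteEdges {s(a, b)})) :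
    ∃ a b, G.Adj a b ∧ Berge (G.deleteEdges {s(a, b)}) := by
  obtain ⟨a, b, h1, h2⟩ := h
  obtain ⟨a, rfl⟩ := e.surjective a
  obtain ⟨b, rfl⟩ := e.surjective b
  refine ⟨a, b, e.map_adj_iff.1 h1, Berge.comap ⟨e.toEquiv.toEmbedding, ?_⟩ h2⟩
  intro c d
  simp [e.map_adj_iff]

end

def vrs (φ : CNF) : List ℕ := φ.flatten.map Prod.fst

def occ (φ : CNF) (v : ℕ) (s : Bool) (c : ℕ) : Bool :=
  decide (((vrs φ).getD v 0, s) ∈ φ.getD c [] ∧ ¬ (vrs φ).getD v 0 ∈ (vrs φ).take v)

theorem idxOf_eq_of {l : List ℕ} {v : ℕ} (hv : v < l.length) (h : ¬ l.getD v 0 ∈ l.take v) :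
    l.idxOf (l.getD v 0) = v := by
  rw [List.getD_eq_getElem _ _ hv] at h ⊢
  have h1 : l.idxOf l[v] < l.length := List.idxOf_lt_length_of_mem (List.getElem_mem _)
  have h2 := List.getElem_idxOf h1
  rcases lt_trichotomy (l.idxOf l[v]) v with c | c | c
  · exact absurd (List.mem_take_iff_getElem.2 ⟨l.idxOf l[v], by omega, h2⟩) h
  · exact c
  · have := List.not_of_lt_findIdx (p := (· == l[v])) (xs := l) c
    simp at this

theorem not_mem_take_idxOf {l : List ℕ} (x : ℕ) : ¬ x ∈ l.take (l.idxOf x) := by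
  intro h
  obtain ⟨i, hi, e⟩ := List.mem_take_iff_getElem.1 h
  have := List.not_of_lt_findIdx (p := (· == x)) (xs := l) (i := i) (by
    change i < l.idxOf x
    omega)
  simp [e] at this

theorem sat_iff (φ : CNF) : φ.Sat ↔
    ∃ a : ℕ → Bool, ∀ c < φ.length, ∃ v < (vrs φ).length, occ φ v (a v) c = true := by
  constructor
  · rintro ⟨val, hval⟩
    refine ⟨fun v => val ((vrs φ).getD v 0), fun c hc => ?_⟩
    obtain ⟨l, hl, e⟩ := hval _ (List.getElem_mem hc)
    have h1 : l.1 ∈ vrs φ :=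
      List.mem_map_of_mem (List.mem_flatten.2 ⟨_, List.getElem_mem hc, hl⟩)
    have h2 := List.idxOf_lt_length_of_mem h1
    have h3 : (vrs φ).getD ((vrs φ).idxOf l.1) 0 = l.1 := by
      rw [List.getD_eq_getElem _ _ h2, List.getElem_idxOf h2]
    refine ⟨_, h2, ?_⟩
    simp only [occ, h3, e, decide_eq_true_eq, List.getD_eq_getElem _ _ hc]
    exact ⟨hl, not_mem_take_idxOf _⟩
  · rintro ⟨a, ha⟩
    refine ⟨fun x => a ((vrs φ).idxOf x), fun c hc => ?_⟩
    obtain ⟨i, hi, rfl⟩ := List.getElem_of_mem hc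
    obtain ⟨v, hv, e⟩ := ha i hi
    simp only [occ, decide_eq_true_eq, List.getD_eq_getElem _ _ hi] at e
    exact ⟨_, e.1, by simp only [idxOf_eq_of hv e.2]⟩

def Lit (φ : CNF) (s : Bool) (i j : ℕ) : Prop :=
  i < (vrs φ).length ∧ j < φ.length ∧ occ φ i s j = true

theorem sat_iff' (φ : CNF) : φ.Sat ↔ ∃ a : ℕ → Prop, ∀ j < φ.length,
    ∃ i, (a i ∧ Lit φ true i j) ∨ (¬a i ∧ Lit φ false i j) := by
  classical
  rw [sat_iff]
  constructor
  · rintro ⟨a, ha⟩
    refine ⟨fun i => a i = true, fun j hj => ?_⟩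
    obtain ⟨i, hi, h⟩ := ha j hj
    refine ⟨i, ?_⟩
    cases c : a i <;> simp_all [Lit]
  · rintro ⟨a, ha⟩
    refine ⟨fun i => decide (a i), fun j hj => ?_⟩
    obtain ⟨i, ⟨c, h⟩ | ⟨c, h⟩⟩ := ha j hj <;> exact ⟨i, h.1, by simpa [c] using h.2.2⟩

def dec (n k : ℕ) : Vx := (k % 16, k / 16 % (n + 1), k / 16 / (n + 1))

theorem dec_inj (n : ℕ) : Function.Injective (dec n) := fun a b h => by
  simp only [dec, Prod.mk.injEq] at h
  have := Nat.div_add_mod (a / 16) (n + 1)
  rw [h.2.1, h.2.2, Nat.div_add_mod] at this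
  omega

def kOf (n m : ℕ) : ℕ := (n + 1) * (m + 1) * 16

theorem dec_surj {n m : ℕ} {u : Vx} (h : u.1 < 16 ∧ u.2.1 ≤ n ∧ u.2.2 ≤ m) :
    ∃ k : Fin (kOf n m), dec n k = u := by
  obtain ⟨t, i, j⟩ := u
  obtain ⟨h1, h2, h3⟩ : t < 16 ∧ i ≤ n ∧ j ≤ m := h
  have : (n + 1) * j ≤ (n + 1) * m := Nat.mul_le_mul_left _ h3
  refine ⟨⟨t + 16 * (i + (n + 1) * j), by unfold kOf; rw [Nat.mul_add_one (n + 1) m]; omega⟩, ?_⟩
  have e : (t + 16 * (i + (n + 1) * j)) / 16 = i + (n + 1) * j := by omega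
  simp only [dec, e, Prod.mk.injEq]
  refine ⟨by omega, ?_, ?_⟩
  · rw [Nat.add_mul_mod_self_left, Nat.mod_eq_of_lt (by omega)]
  · rw [Nat.add_mul_div_left _ _ (by omega), Nat.div_eq_of_lt (by omega), Nat.zero_add]

theorem kOf_gt (n m : ℕ) : 1 < kOf n m := by
  have : 0 < (n + 1) * (m + 1) := by positivity
  unfold kOf
  omega

def Ent (n m : ℕ) (P N : ℕ → ℕ → Prop) (a b : ℕ) : Prop :=
  a ≠ b ∧ ¬HA (fun u v => A n m P N (dec n u) (dec n v)) 0 1 (a / 6) (a % 6) (b / 6) (b % 6)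

open Classical in
noncomputable def mat (n m : ℕ) (P N : ℕ → ℕ → Prop) : List (List Bool) :=
  (List.range (kOf n m * 6)).map fun a => (List.range (kOf n m * 6)).map fun b =>
    decide (Ent n m P N a b)

variable {n m : ℕ} {P N : ℕ → ℕ → Prop}

theorem mat_length : (mat n m P N).length = kOf n m * 6 := by simp [mat]

def fin (n m : ℕ) (P N : ℕ → ℕ → Prop) : SimpleGraph (Fin (kOf n m)) :=
  (core n m P N).comap fun k => dec n k

def vx (n m : ℕ) : Fin (kOf n m) := ⟨0, (kOf_gt n m).le⟩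

def vy (n m : ℕ) : Fin (kOf n m) := ⟨1, kOf_gt n m⟩

noncomputable def matIso : matGraph (mat n m P N) ≃g (gadH (fin n m P N) (vx n m) (vy n m))ᶜ where
  toEquiv := (finCongr mat_length).trans finProdFinEquiv.symm
  map_rel_iff' := by
    have key : ∀ a b : Fin (mat n m P N).length, ((mat n m P N).getD a []).getD b false = true ↔
        (gadH (fin n m P N) (vx n m) (vy n m))ᶜ.Adj
          (((finCongr mat_length).trans finProdFinEquiv.symm) a)
          (((finCongr mat_length).trans finProdFinEquiv.symm) b) := by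
      intro a b
      have ha : a.val < kOf n m * 6 := mat_length (P := P) (N := N) ▸ a.2
      have hb : b.val < kOf n m * 6 := mat_length (P := P) (N := N) ▸ b.2
      have : ((mat n m P N).getD a []).getD b false = true ↔ Ent n m P N a b := by
        generalize a.val = a at *
        generalize b.val = b at *
        simp [mat, ha, hb]
      rw [this, SimpleGraph.compl_adj, Equiv.injective _ |>.ne_iff, gadH_adj]
      simp only [Ent, HA, Own, ne_eq, Fin.ext_iff]
      rfl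
    intro a b
    rw [matGraph, SimpleGraph.fromRel_adj, key, key]
    exact ⟨fun h => ⟨fun e => h.ne (by rw [e]), Or.inl h⟩, fun h => h.2.elim id fun e => e.symm⟩

theorem mat_spec (hn : 0 < n) (hP : ∀ i j, P i j → i < n ∧ j < m)
    (hN : ∀ i j, N i j → i < n ∧ j < m) :
    (∃ a b, (matGraph (mat n m P N)).Adj a b ∧
      Berge ((matGraph (mat n m P N)).deleteEdges {s(a, b)})) ∧
    ((∃ a : ℕ → Prop, ∀ j < m, ∃ i, (a i ∧ P i j) ∨ (¬a i ∧ N i j)) ↔
      ¬∃ u v, EvenPair (matGraph (mat n m P N)) u v) := by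
  have hx : dec n (vx n m) = (0, 0, 0) := by simp [dec, vx]
  have hy : dec n (vy n m) = (1, 0, 0) := by simp [dec, vy]
  let e : fin n m P N ↪g core n m P N :=
    ⟨⟨fun k => dec n k, (dec_inj n).comp Fin.val_injective⟩, Iff.rfl⟩
  constructor
  · obtain ⟨a, ha⟩ := dec_surj (n := n) (m := m) (u := (0, n, 0)) (by simp)
    obtain ⟨b, hb⟩ := dec_surj (n := n) (m := m) (u := (10, 0, m)) (by simp)
    refine iso_berge matIso ⟨(a, 0), (b, 0), lift_adj.2 (Or.inr (Or.inl ⟨ha, hb⟩)), ?_⟩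
    rw [gad_delete]
    refine gad_berge (by simp [vx, vy]) (fun h => ?_) (fun k => col (dec n k)) fun c d h => ?_
    · have : (core n m P N).Adj (dec n (vx n m)) (dec n (vy n m)) :=
        (SimpleGraph.deleteEdges_adj.1 h).1
      rw [hx, hy] at this
      exact core_nadj this
    · obtain ⟨h1 | ⟨h1, h2⟩ | ⟨h1, h2⟩, h3⟩ := SimpleGraph.deleteEdges_adj.1 h
      · exact h1.col_ne
      · obtain rfl : c = a := e.injective (h1.trans ha.symm)
        obtain rfl : d = b := e.injective (h2.trans hb.symm)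
        exact absurd rfl h3
      · obtain rfl : d = a := e.injective (h1.trans ha.symm)
        obtain rfl : c = b := e.injective (h2.trans hb.symm)
        exact absurd Sym2.eq_swap h3
  · rw [core_iff hn (fun i j h => (hP i j h).1) (fun i j h => (hN i j h).1), iso_even matIso,
      exists_even_iff, ← hx, ← hy]
    exact not_congr ⟨EvenPair.comap e,
      EvenPair.of_range e fun a b h => dec_surj (box hP hN h)⟩

noncomputable def red (φ : CNF) : List (List Bool) :=
  mat ((vrs φ).length + 1) φ.length (Lit φ true) (Lit φ false)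

section
variable {α : Type} [N487b59b3 α]

@[fun_prop] theorem pt_vrs {f : α → CNF} (hf : PT f) : PT fun a => vrs (f a) := by
  unfold vrs; fun_prop

@[fun_prop] theorem pt_lit {f : α → CNF} {v c : α → ℕ} {s : Bool} (hf : PT f) (hv : PT v)
    (hc : PT c) : PTP fun a => Lit (f a) s (v a) (c a) := by
  unfold Lit occ; fun_prop

@[fun_prop] theorem pt_E {f : α → CNF} {n a i j b k l : α → ℕ} (hf : PT f) (hn : PT n) (ha : PT a)
    (hi : PT i) (hj : PT j) (hb : PT b) (hk : PT k) (hl : PT l) : PTP fun z =>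
      E (n z) (Lit (f z) true) (Lit (f z) false) (a z) (i z) (j z) (b z) (k z) (l z) := by
  unfold E; fun_prop

@[fun_prop] theorem pt_A {f : α → CNF} {n m : α → ℕ} {u v : α → Vx} (hf : PT f) (hn : PT n)
    (hm : PT m) (hu : PT u) (hv : PT v) : PTP fun z =>
      A (n z) (m z) (Lit (f z) true) (Lit (f z) false) (u z) (v z) := by
  unfold A B; fun_prop

theorem pt_red : PT red := by
  unfold red mat Ent HA Own kOf dec
  fun_prop

end

theorem main (L : DecisionProblem) (hL : L ∈ NP) :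
    ∃ f : List Bool → List (List Bool), IsPolyTime f ∧ ∀ x,
      (∃ a b, (matGraph (f x)).Adj a b ∧ Berge ((matGraph (f x)).deleteEdges {s(a, b)})) ∧
        (L x = true ↔ ¬∃ u v, EvenPair (matGraph (f x)) u v) := by
  obtain ⟨g, hg, h⟩ := cook hL
  refine ⟨fun x => red (g x), (pt_red.comp hg).isPolyTime, fun x => ?_⟩
  rw [h, sat_iff']
  exact mat_spec (by omega) (fun i j h => ⟨h.1.trans (by omega), h.2.1⟩)
    fun i j h => ⟨h.1.trans (by omega), h.2.1⟩

end Pool.Agent.P.MP_7fd347_lc
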