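import Pool.Agent.P.MP_7fd347_lc.Core

/-! An odd induced path gives a satisfying assignment. -/

set_option autoImplicit false

namespace Pool.Agent.P.MP_7fd347_lc

variable {n m : ℕ} {P N : ℕ → ℕ → Prop} {S : ℕ → Vx → Prop}

def On (S : ℕ → Vx → Prop) (v : Vx) : Prop := S 0 v ∨ S 1 v

structure Ax (n m : ℕ) (P N : ℕ → ℕ → Prop) (S : ℕ → Vx → Prop) : Prop where
  cross : ∀ a b, S 0 a → S 1 b → ¬B n P N a b
  two : ∀ v, On S v → v ≠ (0, 0, 0) → v ≠ (1, 0, 0) →
    ∃ a b, a ≠ b ∧ On S a ∧ On S b ∧ A n m P N v a ∧ A n m P N v b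
  le2 : ∀ v a b c, On S v → On S a → On S b → On S c → A n m P N v a → A n m P N v b →
    A n m P N v c → a = b ∨ a = c ∨ b = c
  one : ∀ l < 2, S l (l, 0, 0) ∧ ∃ a, On S a ∧ A n m P N (l, 0, 0) a

theorem on_of {l : ℕ} {v : Vx} (hl : l < 2) (h : S l v) : On S v := by
  obtain rfl | rfl : l = 0 ∨ l = 1 := by omega
  exacts [Or.inl h, Or.inr h]

def EV (a i b k : ℕ) : Prop :=
  (k = i ∧ ((a < 2 ∧ (b = a + 2 ∨ b = a + 4)) ∨ (4 ≤ a ∧ a < 8 ∧ b = a + 2) ∨
    ((a = 2 ∨ a = 3) ∧ (b = 6 ∨ b = 7)))) ∨ (k = i + 1 ∧ b < 2 ∧ (a = b + 2 ∨ a = b + 8))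

theorem bv {a i b k : ℕ} (hi : i < n) (h : EV a i b k ∨ (k = i ∧ EV b k a i)) :
    B n P N (a, i, 0) (b, k, 0) :=
  h.elim (fun h => Or.inl (Or.inl ⟨rfl, rfl, hi, h⟩))
    fun h => Or.inr (Or.inl ⟨rfl, rfl, h.1 ▸ hi, h.2⟩)

namespace Ax

variable (X : Ax n m P N S)
include X

theorem step {l : ℕ} {a b : Vx} (hl : l < 2) (ha : S l a) (hb : On S b) (h : B n P N a b) :
    S l b := by
  obtain rfl | rfl : l = 0 ∨ l = 1 := by omega
  · exact hb.resolve_right fun e => X.cross _ _ ha e h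
  · exact hb.resolve_left fun e => X.cross _ _ e ha h.symm

theorem off {a b v : Vx} (ha : S 0 a) (hb : S 1 b) (h : B n P N a v ∧ B n P N b v) : ¬On S v :=
  fun hv => X.cross _ _ (X.step (by omega) ha hv h.1) hb h.2.symm

theorem forced {v p q : Vx} (hv : On S v) (h0 : 2 ≤ v.1 ∨ 0 < v.2.1)
    (h : ∀ a, On S a → A n m P N v a → a = p ∨ a = q) : On S p ∧ On S q := by
  obtain ⟨a, b, hne, ha, hb, ha', hb'⟩ := X.two v hv (by rintro rfl; simp at h0)
    (by rintro rfl; simp at h0)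
  rcases h a ha ha' with rfl | rfl <;> rcases h b hb hb' with rfl | rfl
  · exact absurd rfl hne
  · exact ⟨ha, hb⟩
  · exact ⟨hb, ha⟩
  · exact absurd rfl hne

theorem g_f {l s : ℕ} (hl : l < 2) (hs : s < n) (h : S l (4 + l, s, 0)) : S l (6 + l, s, 0) :=
  X.step hl h (X.forced (on_of hl h) (by simp; omega) fun _ _ e => nb_g hl e).2
    (bv hs (by unfold EV; omega))

end Ax

/-- The state of the gadget of variable `s`. -/
def K (n : ℕ) (P N : ℕ → ℕ → Prop) (S : ℕ → Vx → Prop) (s : ℕ) : Prop :=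
  (∀ l < 2, S l (l, s + 1, 0)) ∧
    (((∀ l < 2, On S (2 + l, s, 0)) ∧ ∀ v, B n P N (2, s, 0) v ∧ B n P N (3, s, 0) v → ¬On S v) ∨
      ∀ v, B n P N (6, s, 0) v ∧ B n P N (7, s, 0) v → ¬On S v)

namespace Ax

variable (X : Ax n m P N S)
include X

theorem k_of {s : ℕ} (hs : s < n)
    (h : ∀ l < 2, S l (l, s, 0) ∧ (On S (2 + l, s, 0) ∨ On S (4 + l, s, 0))) : K n P N S s := by
  have ht : ∀ l < 2, On S (2 + l, s, 0) → S l (2 + l, s, 0) := fun l hl e =>
    X.step hl (h l hl).1 e (bv hs (by unfold EV; omega))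
  have hf : ∀ l < 2, On S (4 + l, s, 0) → S l (6 + l, s, 0) := fun l hl e =>
    X.g_f hl hs (X.step hl (h l hl).1 e (bv hs (by unfold EV; omega)))
  rcases (h 0 (by omega)).2 with a | a <;> rcases (h 1 (by omega)).2 with b | b
  · have o := fun v => X.off (v := v) (ht 0 (by omega) a) (ht 1 (by omega) b)
    have on : ∀ l < 2, On S (2 + l, s, 0) := fun l hl => by
      obtain rfl | rfl : l = 0 ∨ l = 1 := by omega
      exacts [a, b]
    refine ⟨fun l hl => ?_, Or.inl ⟨on, o⟩⟩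
    exact X.step hl (ht l hl (on l hl)) (X.forced (on l hl) (by simp) fun v hv e =>
      (nb_t hl hs e).imp_right fun e => e.resolve_right fun e => o v e hv).2
      (bv hs (by unfold EV; omega))
  · exact absurd (bv hs (by unfold EV; omega)) (X.cross _ _ (ht 0 (by omega) a) (hf 1 (by omega) b))
  · exact absurd (bv hs (by unfold EV; omega)) (X.cross _ _ (hf 0 (by omega) a) (ht 1 (by omega) b))
  · have o := fun v => X.off (v := v) (hf 0 (by omega) a) (hf 1 (by omega) b)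
    refine ⟨fun l hl => ?_, Or.inr o⟩
    have f : S l (6 + l, s, 0) := by
      obtain rfl | rfl : l = 0 ∨ l = 1 := by omega
      exacts [hf 0 (by omega) a, hf 1 (by omega) b]
    have g : S l (8 + l, s, 0) := X.step hl f (X.forced (on_of hl f) (by simp; omega) fun v hv e =>
      (nb_f hl hs e).imp_right fun e => e.resolve_right fun e => o v e hv).2
      (bv hs (by unfold EV; omega))
    exact X.step hl g (X.forced (on_of hl g) (by simp; omega) fun v _ e => nb_h hl e).2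
      (bv hs (by unfold EV; omega))

theorem not_both {s l : ℕ} (hs : s < n) (hl : l < 2) (h : K n P N S s) (a : On S (2 + l, s, 0))
    (b : On S (8 + l, s, 0)) : False := by
  rcases h.2 with o | o
  · exact o.2 _ ⟨bv hs (by unfold EV; omega), bv hs (by unfold EV; omega)⟩
      (X.forced b (by simp; omega) fun v _ e => nb_h hl e).1
  · exact o _ ⟨bv hs (by unfold EV; omega), bv hs (by unfold EV; omega)⟩ a

theorem fwd {s l : ℕ} (hs : s < n) (hl : l < 2) (h : K n P N S s) :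
    ∃ v, On S v ∧ A n m P N (l, s + 1, 0) v ∧ v ≠ (2 + l, s, 0) ∧ v ≠ (8 + l, s, 0) := by
  obtain ⟨a, b, hne, ha, hb, ha', hb'⟩ := X.two _ (on_of hl (h.1 l hl)) (by simp) (by simp)
  by_contra hc
  push Not at hc
  by_cases c1 : a = (2 + l, s, 0) <;> by_cases c2 : b = (2 + l, s, 0)
  · exact hne (c1.trans c2.symm)
  · exact X.not_both hs hl h (c1 ▸ ha) (hc b hb hb' c2 ▸ hb)
  · exact X.not_both hs hl h (c2 ▸ hb) (hc a ha ha' c1 ▸ ha)
  · exact hne ((hc a ha ha' c1).trans (hc b hb hb' c2).symm)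

theorem k_all (s : ℕ) (hs : s < n) : K n P N S s := by
  induction s with
  | zero =>
    refine X.k_of hs fun l hl => ⟨(X.one l hl).1, ?_⟩
    obtain ⟨a, ha, e⟩ := (X.one l hl).2
    rcases nb_a hl hs e with rfl | rfl | e
    exacts [Or.inl ha, Or.inr ha, absurd e.1 (by omega)]
  | succ s ih =>
    have ih := ih (by omega)
    refine X.k_of hs fun l hl => ⟨ih.1 l hl, ?_⟩
    obtain ⟨a, ha, e, n1, n2⟩ := X.fwd (by omega) hl ih
    rcases nb_a hl hs e with rfl | rfl | ⟨-, e | e⟩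
    exacts [Or.inl ha, Or.inr ha, absurd e n1, absurd e n2]

theorem pos (hP : ∀ i j, P i j → i < n) {i j : ℕ} (h : On S (12, i, j)) :
    P i j ∧ On S (2, i, 0) ∧ On S (10, 0, j + 1) := by
  obtain ⟨a, -, -, -, -, e, -⟩ := X.two _ h (by simp) (by simp)
  have p : P i j := (lit e).1 rfl
  have hi := hP _ _ p
  rcases (X.k_all i hi).2 with o | o
  · refine ⟨p, o.1 0 (by omega), (X.forced (p := (10, 0, j)) h (by simp) fun v hv e => ?_).2⟩
    rcases nb_12 e with e | e | rfl | rfl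
    · exact Or.inl e
    · exact Or.inr e
    · exact absurd hv (o.2 _ (by simp [B, E, hi]))
    · exact absurd hv (o.2 _ (by simp [B, E, hi]))
  · exact absurd h (o _ (by simp [B, E, p]))

theorem neg (hN : ∀ i j, N i j → i < n) {i j : ℕ} (h : On S (14, i, j)) :
    N i j ∧ ¬On S (2, i, 0) ∧ On S (13, i, j) ∧ On S (15, i, j) := by
  obtain ⟨a, -, -, -, -, e, -⟩ := X.two _ h (by simp) (by simp)
  have p : N i j := (lit e).2 (by simp)
  have hi := hN _ _ p
  rcases (X.k_all i hi).2 with o | o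
  · exact absurd h (o.2 _ (by simp [B, E, p]))
  · refine ⟨p, o _ (by simp [B, E, hi]), X.forced h (by simp) fun v hv e => ?_⟩
    rcases nb_14 e with e | e | rfl | rfl
    · exact Or.inl e
    · exact Or.inr e
    · exact absurd hv (o _ (by simp [B, E, hi]))
    · exact absurd hv (o _ (by simp [B, E, hi]))

end Ax

def Back (j : ℕ) (v : Vx) : Prop :=
  (j = 0 ∧ v = (11, 0, 0)) ∨ ((v.1 = 12 ∨ v.1 = 15) ∧ v.2.2 + 1 = j)

def D (n m : ℕ) (P N : ℕ → ℕ → Prop) (S : ℕ → Vx → Prop) (j : ℕ) : Prop :=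
  On S (10, 0, j) ∧ ∃ b, On S b ∧ A n m P N (10, 0, j) b ∧ Back j b ∧
    ∀ c, On S c → Back j c → c = b

namespace Ax

variable (X : Ax n m P N S)
include X

theorem d_fwd {j : ℕ} (hj : j < m) (h : D n m P N S j) :
    ∃ i, On S (12, i, j) ∨ On S (13, i, j) := by
  obtain ⟨h1, b, -, -, -, hb⟩ := h
  obtain ⟨u, v, hne, hu, hv, hu', hv'⟩ := X.two _ h1 (by simp) (by simp)
  have key : ∀ u, On S u → A n m P N (10, 0, j) u → u ≠ b →
      ∃ i, On S (12, i, j) ∨ On S (13, i, j) := by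
    rintro ⟨t, i, k⟩ hu hu' hne
    rcases nb_d hj hu' with e | e | ⟨e | e, e'⟩
    · exact absurd (hb _ hu (Or.inl e)) hne
    · exact absurd (hb _ hu (Or.inr e)) hne
    all_goals
      dsimp only at e e'
      subst e e'
    exacts [⟨i, Or.inl hu⟩, ⟨i, Or.inr hu⟩]
  by_cases c : u = b
  · exact key v hv hv' fun e => hne (c.trans e.symm)
  · exact key u hu hu' c

theorem d_all (hn : 0 < n) (hP : ∀ i j, P i j → i < n) (hN : ∀ i j, N i j → i < n) (j : ℕ)
    (hj : j ≤ m) : D n m P N S j := by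
  induction j with
  | zero =>
    obtain ⟨s, rfl⟩ : ∃ s, n = s + 1 := ⟨n - 1, by omega⟩
    obtain ⟨a, ha, e, n1, n2⟩ := X.fwd (l := 1) (by omega) (by omega) (X.k_all s (by omega))
    obtain rfl : a = (11, 0, 0) := by
      rcases nb_b e with e | e | e
      exacts [e, absurd e n1, absurd e n2]
    refine ⟨(X.forced ha (by simp) fun v _ e => nb_r e).2, _, ha, by simp [A, B, E],
      Or.inl ⟨rfl, rfl⟩, fun c _ e => ?_⟩
    rcases e with e | e
    exacts [e.2, by omega]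
  | succ j ih =>
    have ih := ih (by omega)
    have n15 : ∀ i, On S (15, i, j) → On S (14, i, j) ∧ On S (10, 0, j + 1) := fun i h =>
      X.forced h (by simp) fun v _ e => nb_15 e
    have fw : ∀ c, On S c → Back (j + 1) c → ∃ d, On S d ∧ A n m P N (10, 0, j) d ∧ ¬Back j d ∧
        d.2.1 = c.2.1 ∧ c.2.2 = j ∧ ((c.1 = 12 ∧ d.1 = 12) ∨ (c.1 = 15 ∧ d.1 = 13)) := by
      rintro ⟨t, i, k⟩ hc (e | ⟨e | e, e'⟩)
      · omega
      all_goals
        dsimp only at e e'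
        obtain rfl : k = j := by omega
        subst e
      · exact ⟨_, hc, by simp [A, B, E, (X.pos hP hc).1], by simp [Back], by simp⟩
      · have := X.neg hN (n15 i hc).1
        exact ⟨_, this.2.2.1, by simp [A, B, E, this.1], by simp [Back], by simp⟩
    have uniq : ∀ b c, On S b → Back (j + 1) b → On S c → Back (j + 1) c → c = b := by
      intro b c hb hb' hc hc'
      obtain ⟨h1, z, z1, z2, z3, -⟩ := ih
      obtain ⟨d, d1, d2, d3, d4⟩ := fw b hb hb'
      obtain ⟨e, e1, e2, e3, e4⟩ := fw c hc hc'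
      rcases X.le2 _ _ _ _ h1 z1 d1 e1 z2 d2 e2 with rfl | rfl | rfl
      · exact absurd z3 d3
      · exact absurd z3 e3
      · exact Prod.ext (by omega) (Prod.ext (by omega) (by omega))
    obtain ⟨i, h | h⟩ := X.d_fwd (by omega) ih
    · have := X.pos hP h
      exact ⟨this.2.2, _, h, by simp [A, B, E, this.1], by simp [Back],
        fun c => uniq _ c h (by simp [Back])⟩
    · have := X.neg hN (X.forced h (by simp) fun v _ e => nb_13 e).2
      exact ⟨(n15 i this.2.2.2).2, _, this.2.2.2, by simp [A, B, E, this.1], by simp [Back],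
        fun c => uniq _ c this.2.2.2 (by simp [Back])⟩

theorem sat (hn : 0 < n) (hP : ∀ i j, P i j → i < n) (hN : ∀ i j, N i j → i < n) :
    ∃ a : ℕ → Prop, ∀ j < m, ∃ i, (a i ∧ P i j) ∨ (¬a i ∧ N i j) := by
  refine ⟨fun i => On S (2, i, 0), fun j hj => ?_⟩
  obtain ⟨i, h | h⟩ := X.d_fwd hj (X.d_all hn hP hN j hj.le)
  · have := X.pos hP h
    exact ⟨i, Or.inl ⟨this.2.1, this.1⟩⟩
  · have := X.neg hN (X.forced h (by simp) fun v _ e => nb_13 e).2
    exact ⟨i, Or.inr ⟨this.2.1, this.1⟩⟩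

end Ax

theorem exists_ax {L : ℕ} {w : ℕ → Vx} (hw : IndPath (core n m P N) L w) (h0 : w 0 = (0, 0, 0))
    (hL : w L = (1, 0, 0)) (ho : ¬Even L) : ∃ S, Ax n m P N S := by
  obtain ⟨k, hk, hb⟩ : ∃ k < L, ¬B n P N (w k) (w (k + 1)) := by
    by_contra hc
    push Not at hc
    exact ho ((parity col L fun i hi => (hc i hi).col_ne).1 (by rw [h0, hL]; rfl))
  have adj : ∀ i ≤ L, ∀ j ≤ L, (A n m P N (w i) (w j) ↔ i + 1 = j ∨ j + 1 = i) :=
    fun i hi j hj => (hw i hi j hj).2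
  have on : ∀ v, On (fun l v => ∃ i ≤ L, w i = v ∧ (i ≤ k ↔ l = 0)) v ↔ ∃ i ≤ L, w i = v :=
    fun v => ⟨fun h => h.elim (fun ⟨i, a, b, _⟩ => ⟨i, a, b⟩) fun ⟨i, a, b, _⟩ => ⟨i, a, b⟩,
      fun ⟨i, a, b⟩ => (em (i ≤ k)).imp (fun c => ⟨i, a, b, by simp [c]⟩)
        fun c => ⟨i, a, b, by simp [c]⟩⟩
  refine ⟨fun l v => ∃ i ≤ L, w i = v ∧ (i ≤ k ↔ l = 0), ?_, ?_, ?_, ?_⟩
  · rintro _ _ ⟨i, hi, rfl, a⟩ ⟨j, hj, rfl, b⟩ e
    have := (adj i hi j hj).1 (Or.inl e)
    obtain rfl : i = k := by omega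
    obtain rfl : j = i + 1 := by omega
    exact hb e
  · intro v hv n0 n1
    obtain ⟨i, hi, rfl⟩ := (on v).1 hv
    have i0 : i ≠ 0 := by rintro rfl; exact n0 h0
    have iL : i ≠ L := by rintro rfl; exact n1 hL
    refine ⟨w (i - 1), w (i + 1), fun e => ?_, (on _).2 ⟨_, by omega, rfl⟩,
      (on _).2 ⟨_, by omega, rfl⟩, (adj _ hi _ (by omega)).2 (by omega),
      (adj _ hi _ (by omega)).2 (by omega)⟩
    have := (hw _ (by omega) _ (by omega)).1 e
    omega
  · intro v a b c hv ha hb hc ea eb ec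
    obtain ⟨i, hi, rfl⟩ := (on v).1 hv
    obtain ⟨a, la, rfl⟩ := (on a).1 ha
    obtain ⟨b, lb, rfl⟩ := (on b).1 hb
    obtain ⟨c, lc, rfl⟩ := (on c).1 hc
    rw [adj _ hi _ la] at ea
    rw [adj _ hi _ lb] at eb
    rw [adj _ hi _ lc] at ec
    have : a = b ∨ a = c ∨ b = c := by omega
    exact this.imp (congrArg w) (Or.imp (congrArg w) (congrArg w))
  · intro l hl
    obtain rfl | rfl : l = 0 ∨ l = 1 := by omega
    · exact ⟨⟨0, by omega, h0, by simp⟩, w 1, (on _).2 ⟨_, by omega, rfl⟩,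
        h0 ▸ (adj 0 (by omega) 1 (by omega)).2 (by omega)⟩
    · exact ⟨⟨L, le_rfl, hL, by omega⟩, w (L - 1), (on _).2 ⟨_, by omega, rfl⟩,
        hL ▸ (adj L le_rfl (L - 1) (by omega)).2 (by omega)⟩

end Pool.Agent.P.MP_7fd347_lc
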